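import Pool.Agent.Lib_helper31.Braid.Final

/-!
# The pure braid groups are RFRS and the braid groups are virtually RFRS
-/

set_option autoImplicit false

open scoped TensorProduct

namespace Pool.Agent.Results.MP_3a48a6_al.PureBraidRFRS

/-- The Artin relators of the braid group on `n` strands; the generators `σ_1, …, σ_{n-1}` are
indexed by `Fin (n - 1)`. -/
def artinRels (n : ℕ) : Set (FreeGroup (Fin (n - 1))) :=
  {r | (∃ i j : Fin (n - 1), (i.val + 2 ≤ j.val ∨ j.val + 2 ≤ i.val) ∧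
      r = FreeGroup.of i * FreeGroup.of j * (FreeGroup.of j * FreeGroup.of i)⁻¹) ∨
    ∃ i j : Fin (n - 1), j.val = i.val + 1 ∧
      r = FreeGroup.of i * FreeGroup.of j * FreeGroup.of i *
        (FreeGroup.of j * FreeGroup.of i * FreeGroup.of j)⁻¹}

/-- The braid group `B_n`, given by the Artin presentation. -/
abbrev Braid (n : ℕ) : Type := PresentedGroup (artinRels n)

/-- The generator `σ_i` of the braid group. -/
def sig {n : ℕ} (i : Fin (n - 1)) : Braid n := PresentedGroup.of i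

/-- The natural map `G → H_1(G; ℤ) ⊗ ℚ`. -/
def toRatH1 (G : Type) [Group G] :
    G →* Multiplicative (ℚ ⊗[ℤ] Additive (Abelianization G)) where
  toFun g := Multiplicative.ofAdd ((1 : ℚ) ⊗ₜ[ℤ] Additive.ofMul (Abelianization.of g))
  map_one' := by
    rw [map_one, ofMul_one, TensorProduct.tmul_zero, ofAdd_zero]
  map_mul' a b := by
    rw [map_mul, ofMul_mul, TensorProduct.tmul_add, ofAdd_add]

/-- `G` is RFRS: it is finitely generated and has a chain `G = G_0 ≥ G_1 ≥ …` of normal subgroups of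
finite index with trivial intersection such that `G_{i+1}` contains the kernel of the natural map
`G_i → H_1(G_i; ℤ) ⊗ ℚ`. -/
def RFRS (G : Type) [Group G] : Prop :=
  Group.FG G ∧ ∃ C : ℕ → Subgroup G,
    C 0 = ⊤ ∧ (∀ i, C (i + 1) ≤ C i) ∧ (∀ i, (C i).Normal) ∧ (∀ i, (C i).FiniteIndex) ∧
    (∀ g, (∀ i, g ∈ C i) → g = 1) ∧
    ∀ i, (toRatH1 (C i)).ker.map (C i).subtype ≤ C (i + 1)

/-- `G` is virtually RFRS: some subgroup of finite index is RFRS. -/
def VirtuallyRFRS (G : Type) [Group G] : Prop := ∃ H : Subgroup G, H.FiniteIndex ∧ RFRS H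

/-! ### the kernel of the natural map -/

theorem pow_mem_of_ker {G : Type} [Group G] {g : G} (h : g ∈ (toRatH1 G).ker) :
    ∃ k : ℕ, 0 < k ∧ g ^ k ∈ commutator G := by
  have h1 : (1 : ℚ) ⊗ₜ[ℤ] Additive.ofMul (Abelianization.of g) =
      (0 : ℚ ⊗[ℤ] Additive (Abelianization G)) := by
    have h2 := MonoidHom.mem_ker.1 h
    exact Multiplicative.ofAdd.injective h2
  have hloc : IsLocalizedModule (nonZeroDivisors ℤ)
      (TensorProduct.mk ℤ ℚ (Additive (Abelianization G)) 1) :=
    (isLocalizedModule_iff_isBaseChange (nonZeroDivisors ℤ) ℚ _).2 (TensorProduct.isBaseChange _ _ _)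
  have h3 : (TensorProduct.mk ℤ ℚ (Additive (Abelianization G)) 1)
      (Additive.ofMul (Abelianization.of g)) = 0 := h1
  obtain ⟨s, hs⟩ := (IsLocalizedModule.eq_zero_iff (nonZeroDivisors ℤ) _).1 h3
  have hs0 : (s : ℤ) ≠ 0 := nonZeroDivisors.coe_ne_zero s
  have h4 : (s : ℤ) • Additive.ofMul (Abelianization.of g) = 0 := hs
  rw [← ofMul_zpow, ← ofMul_one] at h4
  have h5 : Abelianization.of (g ^ (s : ℤ)) = 1 := by
    rw [map_zpow]
    exact Additive.ofMul.injective h4
  have h6 : g ^ (s : ℤ) ∈ commutator G := (QuotientGroup.eq_one_iff _).1 h5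
  refine ⟨(s : ℤ).natAbs, Int.natAbs_pos.2 hs0, ?_⟩
  rcases Int.natAbs_eq (s : ℤ) with h7 | h7
  · rw [h7, zpow_natCast] at h6
    exact h6
  · rw [h7, zpow_neg, zpow_natCast] at h6
    exact inv_mem_iff.1 h6

theorem rfrs_of_chain {G : Type} [Group G] (hG : Group.FG G)
    (h : ∃ Gs : ℕ → Subgroup G,
        Gs 0 = ⊤ ∧
        (∀ i, (Gs i).Normal) ∧
        (∀ i, (Gs i).FiniteIndex) ∧
        (∀ i, Gs (i + 1) ≤ Gs i) ∧
        (⨅ i, Gs i) = ⊥ ∧
        (∀ i, ∀ g ∈ Gs i, (∃ k : ℕ, 0 < k ∧ g ^ k ∈ ⁅Gs i, Gs i⁆) → g ∈ Gs (i + 1))) :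
    RFRS G := by
  obtain ⟨C, h0, hn, hf, hd, hi, hk⟩ := h
  refine ⟨hG, C, h0, hd, hn, hf, ?_, ?_⟩
  · intro g hg
    have h1 : g ∈ (⨅ i, C i) := Subgroup.mem_iInf.2 hg
    rw [hi] at h1
    exact Subgroup.mem_bot.1 h1
  · rintro i _ ⟨g, hg, rfl⟩
    obtain ⟨k, hk0, hk1⟩ := pow_mem_of_ker hg
    refine hk i g g.2 ⟨k, hk0, ?_⟩
    have h1 : (C i).subtype (g ^ k) ∈ (commutator (C i)).map (C i).subtype :=
      Subgroup.mem_map_of_mem _ hk1
    rw [commutator_def, Subgroup.map_commutator, ← MonoidHom.range_eq_map,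
      Subgroup.range_subtype] at h1
    exact h1

/-! ### the Artin presentation -/

/-- The two versions of the Artin relators have the same normal closure. -/
theorem normalClosure_eq (m : ℕ) : Subgroup.normalClosure (artinRels (m + 1)) =
    Subgroup.normalClosure (H31Braid.rels m) := by
  have inv_rel : ∀ a b : FreeGroup (Fin m), (b * a * (a * b)⁻¹)⁻¹ = a * b * (b * a)⁻¹ := by
    intro a b
    group
  apply le_antisymm
  · apply Subgroup.normalClosure_le_normal
    rintro r (⟨i, j, hij | hij, rfl⟩ | ⟨i, j, hij, rfl⟩)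
    · exact Subgroup.subset_normalClosure ⟨i, j, Or.inr ⟨hij, rfl⟩⟩
    · have h1 : FreeGroup.of j * FreeGroup.of i * (FreeGroup.of i * FreeGroup.of j)⁻¹ ∈
          Subgroup.normalClosure (H31Braid.rels m) :=
        Subgroup.subset_normalClosure ⟨j, i, Or.inr ⟨hij, rfl⟩⟩
      have h2 := Subgroup.inv_mem _ h1
      rw [inv_rel] at h2
      exact h2
    · exact Subgroup.subset_normalClosure ⟨i, j, Or.inl ⟨hij.symm, rfl⟩⟩
  · apply Subgroup.normalClosure_le_normal
    rintro r ⟨i, j, ⟨hij, rfl⟩ | ⟨hij, rfl⟩⟩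
    · exact Subgroup.subset_normalClosure (Or.inr ⟨i, j, hij.symm, rfl⟩)
    · exact Subgroup.subset_normalClosure (Or.inl ⟨i, j, Or.inl hij, rfl⟩)

/-- The identification of the two presented groups. -/
def equ (m : ℕ) : Braid (m + 1) ≃* PresentedGroup (H31Braid.rels m) :=
  QuotientGroup.quotientMulEquivOfEq (normalClosure_eq m)

theorem equ_sig {m : ℕ} (i : Fin m) : equ m (sig (n := m + 1) i) = PresentedGroup.of i := rfl

theorem fg_braid (n : ℕ) : Group.FG (Braid n) :=
  Group.fg_of_surjective (f := PresentedGroup.mk (artinRels n)) (PresentedGroup.mk_surjective _)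

/-- **Braid groups are virtually RFRS, and pure braid groups are RFRS.** For every `n ≥ 1` the braid
group `B_n` is virtually RFRS; more precisely, the pure braid group, that is the kernel of the
homomorphism `π` to the symmetric group with `π σ_i = (i, i + 1)`, is RFRS. -/
theorem result (n : ℕ) (hn : 1 ≤ n) :
    VirtuallyRFRS (Braid n) ∧
      ∃ π : Braid n →* Equiv.Perm (Fin n),
        (∀ i : Fin (n - 1), π (sig i) = Equiv.swap ⟨i.val, by omega⟩ ⟨i.val + 1, by omega⟩) ∧
        RFRS π.ker := by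
  obtain ⟨m, rfl⟩ : ∃ m, n = m + 1 := ⟨n - 1, by omega⟩
  let π : Braid (m + 1) →* Equiv.Perm (Fin (m + 1)) := (H31Braid.Prm m).comp (equ m).toMonoidHom
  have hπ : ∀ i : Fin m, π (sig (n := m + 1) i) =
      Equiv.swap (⟨i.val, by omega⟩ : Fin (m + 1)) ⟨i.val + 1, by omega⟩ := fun i =>
    H31Braid.Prm_of i
  have hfg : Group.FG (Braid (m + 1)) := fg_braid (m + 1)
  have hfi : π.ker.FiniteIndex := inferInstance
  have hfgK : Group.FG π.ker := Subgroup.fg_of_index_ne_zero π.ker
  have hcount : Countable (Braid (m + 1)) :=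
    (PresentedGroup.mk_surjective (artinRels (m + 1))).countable
  have hR : RFRS π.ker := by
    refine rfrs_of_chain hfgK (H31Braid.exists_chain_of_detect ?_)
    intro g hg
    have hg1 : equ m g.1 ≠ 1 := by
      intro h
      apply hg
      apply Subtype.ext
      exact (MulEquiv.map_eq_one_iff (equ m)).1 h
    rcases m with _ | m
    · exfalso
      apply hg1
      have h1 := H31Braid.mem_closure_gs 0 (equ 0 g.1)
      have h2 : H31Braid.gs (H31Braid.rr 0) 0 = ∅ := by ext x; simp [H31Braid.gs]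
      rw [h2, Subgroup.closure_empty, Subgroup.mem_bot] at h1
      exact h1
    · apply H31Braid.detect_of_action
        ((H31Braid.Art (m + 1)).comp (equ (m + 1)).toMonoidHom) π.ker ?_ g ?_
      · intro h hh x
        obtain ⟨u, hu⟩ := H31Braid.Art_conj (equ (m + 1) h) x
        have hh' : H31Braid.Prm (m + 1) (equ (m + 1) h) = 1 := hh
        rw [hh'] at hu
        exact ⟨u, hu⟩
      · intro h0
        exact hg1 (H31Braid.Art_injective (m + 1) _ h0)
  exact ⟨⟨π.ker, hfi, hR⟩, π, hπ, hR⟩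

end Pool.Agent.Results.MP_3a48a6_al.PureBraidRFRS
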